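import Pool.Agent.helper84.QI.Spec

/-!
# Project QI (MP_fd6eef_al), row OLN
-/

set_option autoImplicit false

namespace Pool.Agent.QI

theorem OLN_cj_one {G : Type} [Group G] (L : Subgroup G) : cj 1 L = L := by
  unfold cj
  ext y
  simp

theorem OLN_cj_mul {G : Type} [Group G] (g h : G) (L : Subgroup G) : cj (g * h) L = cj g (cj h L) := by
  unfold cj
  rw [Subgroup.map_map]
  congr 1
  ext y
  simp [mul_assoc]

theorem OLN_mem_cj {G : Type} [Group G] (g : G) (L : Subgroup G) {y : G} (hy : y ∈ L) : g * y * g⁻¹ ∈ cj g L := ⟨y, hy, by simp⟩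

theorem OLN_cj_inv {G : Type} [Group G] (g : G) (L L' : Subgroup G) (h : cj g L = cj g L') : L = L' := by
  have h1 : cj (g⁻¹ * g) L = cj (g⁻¹ * g) L' := by rw [OLN_cj_mul, OLN_cj_mul, h]
  rwa [inv_mul_cancel, OLN_cj_one, OLN_cj_one] at h1

/-- the product of the conjugates `x^(j+k) y x^(-(j+k))`, `j < m` -/
def OLN_R {G : Type} [Group G] (x y : G) (k m : ℕ) : G := ((List.range m).map (fun j => x ^ (j + k) * y * (x ^ (j + k))⁻¹)).prod

theorem OLN_R_last {G : Type} [Group G] (x y : G) (k m : ℕ) :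
    OLN_R x y k (m + 1) = OLN_R x y k m * (x ^ (m + k) * y * (x ^ (m + k))⁻¹) := by
  unfold OLN_R
  rw [List.range_succ, List.map_append, List.prod_append]
  simp

theorem OLN_R_first {G : Type} [Group G] (x y : G) (k m : ℕ) :
    OLN_R x y k (m + 1) = (x ^ k * y * (x ^ k)⁻¹) * OLN_R x y (k + 1) m := by
  induction m with
  | zero => simp [OLN_R]
  | succ m ih =>
    rw [OLN_R_last, ih, OLN_R_last, mul_assoc]
    have : m + 1 + k = m + (k + 1) := by omega
    rw [this]

theorem OLN_R_conj {G : Type} [Group G] (x y : G) (k m : ℕ) : x * OLN_R x y k m * x⁻¹ = OLN_R x y (k + 1) m := by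
  induction m with
  | zero => simp [OLN_R]
  | succ m ih =>
    rw [OLN_R_last, OLN_R_last, ← ih]
    have : m + (k + 1) = (m + k) + 1 := by omega
    rw [this, pow_succ' x (m + k)]
    group

theorem OLN_R_mem {G : Type} [Group G] (x y : G) (k m : ℕ) (N : Subgroup G)
    (h : ∀ j < m, x ^ (j + k) * y * (x ^ (j + k))⁻¹ ∈ N) : OLN_R x y k m ∈ N := by
  induction m with
  | zero => simp [OLN_R, N.one_mem]
  | succ m ih =>
    rw [OLN_R_last]
    exact N.mul_mem (ih (fun j hj => h j (by omega))) (h m (by omega))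

theorem OLN_R_comm {G : Type} [Group G] (x y z : G) (k m : ℕ)
    (h : ∀ j < m, z * (x ^ (j + k) * y * (x ^ (j + k))⁻¹) = (x ^ (j + k) * y * (x ^ (j + k))⁻¹) * z) :
    z * OLN_R x y k m = OLN_R x y k m * z := by
  induction m with
  | zero => simp [OLN_R]
  | succ m ih =>
    rw [OLN_R_last, ← mul_assoc, ih (fun j hj => h j (by omega)), mul_assoc, h m (by omega), ← mul_assoc]

theorem OLN : OLN_stmt := by
  intro H _ S hSf hinf hcom hind hcj x hx L hL
  classical
  -- finite order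
  have hfo : IsOfFinOrder x := by
    rw [← finite_zpowers]
    refine hx.subset ?_
    rintro _ ⟨k, rfl⟩
    show x ^ k ∈ Subgroup.centralizer ({x} : Set H)
    rw [Subgroup.mem_centralizer_singleton_iff]
    exact (Commute.refl x).zpow_left k
  have hex : ∃ s : ℕ, 1 ≤ s ∧ cj (x ^ s) L = L :=
    ⟨orderOf x, hfo.orderOf_pos, by rw [pow_orderOf_eq_one, OLN_cj_one]⟩
  obtain ⟨s, hs⟩ : ∃ s, s = Nat.find hex := ⟨_, rfl⟩
  have hs1 : 1 ≤ s := hs ▸ (Nat.find_spec hex).1
  have hs2 : cj (x ^ s) L = L := hs ▸ (Nat.find_spec hex).2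
  have hmin : ∀ k, 1 ≤ k → k < s → cj (x ^ k) L ≠ L := by
    intro k h1 h2 h3
    rw [hs] at h2
    exact Nat.find_min hex h2 ⟨h1, h3⟩
  refine ⟨s, hs1, hs2, fun hxs => ?_⟩
  obtain ⟨t, rfl⟩ : ∃ t, s = t + 1 := ⟨s - 1, by omega⟩
  have hSup : ∀ y ∈ L, OLN_R x y 1 t ∈ sSup (S \ {L}) := by
    intro y hy
    apply OLN_R_mem
    intro j hj
    have h1 : cj (x ^ (j + 1)) L ∈ S \ {L} := ⟨hcj _ _ hL, hmin (j + 1) (by omega) (by omega)⟩
    exact (le_sSup h1 : cj (x ^ (j + 1)) L ≤ sSup (S \ {L})) (OLN_mem_cj _ _ hy)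
  have hcomm : ∀ y ∈ L, y * OLN_R x y 1 t = OLN_R x y 1 t * y := by
    intro y hy
    apply OLN_R_comm
    intro j hj
    exact hcom L hL (cj (x ^ (j + 1)) L) (hcj _ _ hL) (fun e => hmin (j + 1) (by omega) (by omega) e.symm) y hy _
      (OLN_mem_cj _ _ hy)
  have hcen : ∀ y ∈ L, OLN_R x y 0 (t + 1) ∈ Subgroup.centralizer ({x} : Set H) := by
    intro y hy
    rw [Subgroup.mem_centralizer_singleton_iff]
    have h1 : x * OLN_R x y 0 (t + 1) * x⁻¹ = OLN_R x y 0 (t + 1) := by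
      rw [OLN_R_conj, OLN_R_last, OLN_R_first, zero_add, hxs]
      simp only [pow_zero, one_mul, inv_one, mul_one]
      exact (hcomm y hy).symm
    have h2 : x * OLN_R x y 0 (t + 1) = OLN_R x y 0 (t + 1) * x := by
      calc x * OLN_R x y 0 (t + 1) = x * OLN_R x y 0 (t + 1) * x⁻¹ * x := by group
        _ = _ := by rw [h1]
    first
      | exact h2
      | exact h2.symm
  have hinj : ∀ y ∈ L, ∀ y' ∈ L, OLN_R x y 0 (t + 1) = OLN_R x y' 0 (t + 1) → y = y' := by
    intro y hy y' hy' h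
    rw [OLN_R_first, OLN_R_first] at h
    simp only [pow_zero, one_mul, inv_one, mul_one, zero_add] at h
    have h1 : y'⁻¹ * y = OLN_R x y' 1 t * (OLN_R x y 1 t)⁻¹ := by
      calc y'⁻¹ * y = y'⁻¹ * (y * OLN_R x y 1 t) * (OLN_R x y 1 t)⁻¹ := by group
        _ = _ := by rw [h]; group
    have h2 : y'⁻¹ * y ∈ L ⊓ sSup (S \ {L}) := by
      refine ⟨L.mul_mem (L.inv_mem hy') hy, ?_⟩
      rw [h1]
      exact Subgroup.mul_mem _ (hSup y' hy') (Subgroup.inv_mem _ (hSup y hy))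
    rw [(hind hL).eq_bot, Subgroup.mem_bot] at h2
    exact (inv_mul_eq_one.mp h2).symm
  have hLinf := hinf L hL
  have hfin : Finite L := by
    have : Finite (Subgroup.centralizer ({x} : Set H)) := hx
    refine Finite.of_injective (fun y : L => (⟨OLN_R x y 0 (t + 1), hcen y y.2⟩ : Subgroup.centralizer ({x} : Set H))) ?_
    intro y y' h
    exact Subtype.ext (hinj y y.2 y' y'.2 (congrArg Subtype.val h))
  exact not_finite L

end Pool.Agent.QI
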