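import Pool.Agent.helper43.QI.CEN
import Pool.Agent.helper39.QI.CRE
import Pool.Agent.helper22.QI.EFN
import Pool.Agent.helper89.QI.FCH
import Pool.Agent.helper50.QI.FNK
import Pool.Agent.helper2.QI.FPR
import Pool.Agent.helper3.QI.JIN
import Pool.Agent.helper51.QI.MNM
import Pool.Agent.helper40.QI.NIN
import Pool.Agent.helper52.QI.PRO
import Pool.Agent.helper64.QI.QFB
import Pool.Agent.helper24.QI.QIV
import Pool.Agent.helper44.QI.QUO
import Pool.Agent.helper98.QI.TRD
import Pool.Agent.helper18.QI.ZMN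
import Pool.Agent.helper84.QI.OLN

/-!
# Project QI (MP_fd6eef_al): assembly of the second theorem
-/

set_option autoImplicit false

namespace Pool.Agent.QI

theorem t_TRD : TRD_stmt :=
  TRD NIN CEN (EFN NIN) QUO (JIN NIN) QIV QFB MNM (FCH (CRE ZMN) (FPR FNK)) OLN (PRO OLN)

end Pool.Agent.QI
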