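import Pool.Agent.helper84.QI.Spec

/-!
# Project QI (MP_fd6eef_al), row CNJ
-/

set_option autoImplicit false

namespace Pool.Agent.QI

theorem CNJ : CNJ_stmt := by
  intro G _ a b hCE x hx y hy h
  refine (hCE.fin.image (fun s => s * h)).subset ?_
  intro g hg
  refine ⟨g * h⁻¹, ?_, by simp⟩
  show ((Subgroup.closure ({a, (g * h⁻¹)⁻¹ * b * (g * h⁻¹)} : Set G) : Subgroup G) : Set G).Infinite
  obtain ⟨s, hs⟩ : ∃ s, s = g * h⁻¹ := ⟨_, rfl⟩
  rw [← hs]
  have hy' : s⁻¹ * y * s ∈ Subgroup.closure ({a, s⁻¹ * b * s} : Set G) := by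
    obtain ⟨k, rfl⟩ := hy
    have h1 : (s⁻¹ * b * s) ^ k ∈ Subgroup.closure ({a, s⁻¹ * b * s} : Set G) :=
      Subgroup.zpow_mem _ (Subgroup.subset_closure (by simp)) k
    have h2 : s⁻¹ * (fun z : ℤ => b ^ z) k * s = (s⁻¹ * b * s) ^ k := by
      have h3 := conj_zpow (a := s⁻¹) (b := b) (i := k)
      rw [inv_inv] at h3
      exact h3.symm
    rw [h2]
    exact h1
  have hx' : x ∈ Subgroup.closure ({a, s⁻¹ * b * s} : Set G) := by
    obtain ⟨k, rfl⟩ := hx
    exact Subgroup.zpow_mem _ (Subgroup.subset_closure (by simp)) k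
  have hle : Subgroup.closure ({h⁻¹ * x * h, g⁻¹ * y * g} : Set G) ≤
      (Subgroup.closure ({a, s⁻¹ * b * s} : Set G)).map (MulAut.conj h⁻¹).toMonoidHom := by
    rw [Subgroup.closure_le]
    rintro z hz
    rcases hz with hz | hz
    · rw [hz]
      exact ⟨x, hx', by simp⟩
    · rw [Set.mem_singleton_iff] at hz
      rw [hz]
      refine ⟨s⁻¹ * y * s, hy', ?_⟩
      rw [hs]
      simp [mul_assoc]
  intro hfin
  apply hg
  refine Set.Finite.subset ?_ hle
  rw [Subgroup.coe_map]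
  exact hfin.image _

end Pool.Agent.QI
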