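import Pool.Agent.helper23.QI.BPW
import Pool.Agent.helper74.QI.BSQ
import Pool.Agent.helper43.QI.CEN
import Pool.Agent.helper42.QI.CQF
import Pool.Agent.helper29.QI.DIC
import Pool.Agent.helper16.QI.FCF
import Pool.Agent.helper28.QI.FGL
import Pool.Agent.helper40.QI.NIN
import Pool.Agent.helper96.QI.PSL
import Pool.Agent.helper55.QI.QFI
import Pool.Agent.helper24.QI.QIV
import Pool.Agent.helper45.QI.QSB
import Pool.Agent.helper44.QI.QUO
import Pool.Agent.helper79.QI.SWP
import Pool.Agent.helper41.QI.SYC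
import Pool.Agent.helper72.QI.SYF
import Pool.Agent.helper59.QI.TTW
import Pool.Agent.helper49.QI.ULT
import Pool.Agent.helper84.QI.CNJ

/-!
# Project QI (MP_fd6eef_al): assembly of the first theorem
-/

set_option autoImplicit false

namespace Pool.Agent.QI

theorem t_TTW : TTW_stmt :=
  TTW NIN CEN DIC (CQF NIN QIV) (BSQ QUO (FCF NIN QIV) QIV) BPW SYC (ULT CNJ (FGL SYF)) QSB PSL QFI

theorem main_cyclic (G : Type) [Group G] [Infinite G] (a b : G)
    (hgen : Subgroup.closure ({a, b} : Set G) = ⊤)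
    (h : (∃ u ∈ Subgroup.zpowers a, u ^ 2 = 1 ∧
        (∀ P : Sylow 2 (Subgroup.centralizer ({u} : Set G)), IsCyclic P) ∧
        ((Subgroup.centralizer ({u} : Set G) : Set G).Finite ∨
          ∃ k : G, (Subgroup.closure ({u, k⁻¹ * b * k} : Set G) : Set G).Infinite) ∧
        (u = a ∨ ¬ (Subgroup.centralizer ({b ^ 2} : Set G)).FiniteIndex)) ∨
      (∃ u ∈ Subgroup.zpowers b, u ^ 2 = 1 ∧
        (∀ P : Sylow 2 (Subgroup.centralizer ({u} : Set G)), IsCyclic P) ∧
        ((Subgroup.centralizer ({u} : Set G) : Set G).Finite ∨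
          ∃ k : G, (Subgroup.closure ({u, k⁻¹ * a * k} : Set G) : Set G).Infinite) ∧
        (u = b ∨ ¬ (Subgroup.centralizer ({a ^ 2} : Set G)).FiniteIndex))) :
    {g : G | (Subgroup.closure ({a, g⁻¹ * b * g} : Set G) : Set G).Infinite}.Infinite := by
  rcases h with ⟨u, hu, h2, hS, hC, hb⟩ | ⟨u, hu, h2, hS, hC, hb⟩
  · exact t_TTW G a b hgen u hu h2 hS hC hb
  · have hgen' : Subgroup.closure ({b, a} : Set G) = ⊤ := by
      rw [Set.pair_comm]
      exact hgen
    have h3 : (Bad b a).Infinite := t_TTW G b a hgen' u hu h2 hS hC hb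
    have h4 := h3.image (f := fun g : G => g⁻¹) inv_injective.injOn
    refine h4.mono ?_
    rintro _ ⟨g, hg, rfl⟩
    exact ((SWP G a b).1 g).mp hg

end Pool.Agent.QI
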