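import Mathlib

/-!
# Project QI (MP_fd6eef_al): two theorems on counterexamples to Q1

`Bad a b` is the set of the question, `CE a b` says that `G = ⟨a, b⟩` is infinite and `Bad a b` is finite (a counterexample).

RULES: row `XX`: file `Pool/Agent/<seat>/QI/XX.lean`, `import Pool.Agent.helper84.QI.Spec` (rows QIV, QFB need one more import, see the
docstring), `set_option autoImplicit false`, `namespace Pool.Agent.QI`, theorem line as in the lock note (other rows only as
hypotheses), auxiliary lemmas prefixed `XX_`. No straight double quotes, no convert / congr!. Conjugate: `g⁻¹ * b * g`.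
`cj g L` is the subgroup `g L g⁻¹`. All groups are in `Type`.
-/

set_option autoImplicit false

namespace Pool.Agent.QI

/-- the set of the question -/
def Bad {G : Type} [Group G] (a b : G) : Set G :=
  {g : G | (Subgroup.closure ({a, g⁻¹ * b * g} : Set G) : Set G).Infinite}

/-- a counterexample -/
structure CE {G : Type} [Group G] (a b : G) : Prop where
  gen : Subgroup.closure ({a, b} : Set G) = ⊤
  inf : Infinite G
  fin : (Bad a b).Finite

/-- the subgroup `g L g⁻¹` -/
def cj {G : Type} [Group G] (g : G) (L : Subgroup G) : Subgroup G := L.map (MulAut.conj g).toMonoidHom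

/-- the orders used in the first theorem: odd, or a power of `2` which is at least `4` -/
def Ord4 {G : Type} [Group G] (y : G) : Prop := Odd (orderOf y) ∨ ∃ r : ℕ, 2 ≤ r ∧ orderOf y = 2 ^ r

/-- all `2`-subgroups of the centralizers of the conjugates of `u` are cyclic -/
def Cyc {G : Type} [Group G] (u : G) : Prop := ∀ (g : G) (K : Subgroup G),
  K ≤ Subgroup.centralizer ({g⁻¹ * u * g} : Set G) → IsPGroup 2 K → IsCyclic K

/-- `q ∈ Q(ω)`: the conjugate `x q x⁻¹` is constant for almost all `x` -/
def Qc {G : Type} [Group G] (ω : Filter G) (q : G) : Prop := ∃ q' : G, ∀ᶠ x in ω, x * q * x⁻¹ = q'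

/-! ## Block A: general facts on counterexamples -/

/-- **NIN** (short). An infinite normal subgroup has finite index. Proof. Suppose not; then `G ⧸ N` is infinite. For `n ∈ N` the subgroup `C = closure {a, n⁻¹ b n}` is mapped onto `G ⧸ N` (`n⁻¹ b n = b` modulo `N`; `Subgroup.map` of the closure, `MonoidHom.map_closure`, is the closure of the images
of `a`, `b`, i.e. `⊤`), so `C` is infinite and `n ∈ Bad a b`. So `N ⊆ Bad a b`, and `N` would be finite. -/
def NIN_stmt : Prop := ∀ (G : Type) [Group G] (a b : G), CE a b → ∀ N : Subgroup G, N.Normal → (N : Set G).Infinite → N.FiniteIndex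

/-- **CEN** (short). The centralizers are finite, `a`, `b` have finite order. Proof. If `c` commutes with `b` then `c⁻¹ b c = b`, `c ∈ Bad a b`. If `c` commutes with `a` then `closure {a, c⁻¹ b c}` is the image of `⊤` under the conjugation by `c⁻¹`, so it is `⊤`, `c ∈ Bad a b`. So the centralizers are subsets of `Bad a b`.
`zpowers a` is contained in the centralizer of `a`, so it is finite: `IsOfFinOrder a`. -/
def CEN_stmt : Prop := ∀ (G : Type) [Group G] (a b : G), CE a b →
  (Subgroup.centralizer ({a} : Set G) : Set G).Finite ∧ (Subgroup.centralizer ({b} : Set G) : Set G).Finite ∧ IsOfFinOrder a ∧ IsOfFinOrder b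

/-- **CNJ** (short). Other conjugates and powers. Proof. If `x ∈ ⟨a⟩`, `y ∈ ⟨b⟩` and `closure {h⁻¹ x h, g⁻¹ y g}` is infinite then the conjugate `closure {x, h g⁻¹ y g h⁻¹}` is infinite and contained in `closure {a, (g h⁻¹)⁻¹ b (g h⁻¹)}`, so `g h⁻¹ ∈ Bad a b`: the set is contained in the
image of `Bad a b` under `s ↦ s h`. -/
def CNJ_stmt : Prop := ∀ (G : Type) [Group G] (a b : G), CE a b → ∀ x ∈ Subgroup.zpowers a, ∀ y ∈ Subgroup.zpowers b, ∀ h : G,
  {g : G | (Subgroup.closure ({h⁻¹ * x * h, g⁻¹ * y * g} : Set G) : Set G).Infinite}.Finite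

/-- **DIC** (short). If `x ∈ ⟨a⟩` generates with a conjugate of `b` an infinite group then the centralizer of `x` is finite. Proof. For `c` commuting with `x` the group `closure {x, (h c)⁻¹ b (h c)}` is the image of `closure {x, h⁻¹ b h}` under the conjugation by `c⁻¹`, so infinite, and it is contained in
`closure {a, (h c)⁻¹ b (h c)}`; so `h c ∈ Bad a b`. -/
def DIC_stmt : Prop := ∀ (G : Type) [Group G] (a b : G), CE a b → ∀ x ∈ Subgroup.zpowers a,
  (∃ h : G, (Subgroup.closure ({x, h⁻¹ * b * h} : Set G) : Set G).Infinite) → (Subgroup.centralizer ({x} : Set G) : Set G).Finite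

/-- **SWP** (short). Exchange of `a` and `b`. Proof. `closure {b, g⁻¹ a g}` is the image of `closure {a, g b g⁻¹}` under the conjugation by `g⁻¹`; so `g ∈ Bad b a` if and only if `g⁻¹ ∈ Bad a b`. -/
def SWP_stmt : Prop := ∀ (G : Type) [Group G] (a b : G), (∀ g : G, g ∈ Bad b a ↔ g⁻¹ ∈ Bad a b) ∧ (CE a b → CE b a)

/-- **EFN** (short-medium; from NIN). There is a largest finite normal subgroup. Proof. `E = sSup {N | N normal, finite}`. For two finite normal subgroups `N₁ ⊔ N₂` is finite (`Subgroup.mul_normal`: it is the set `N₁ * N₂`) and normal. So the set of the finite normal subgroups is directed and the elements of `E` are the elements of the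
finite normal subgroups (`Subgroup.mem_sSup_of_directedOn`). `E` is normal. If `E` is infinite then it has finite index (NIN), so it is finitely generated (`Subgroup.fg_of_index_ne_zero`; `G` is finitely generated); the finitely many generators lie in one finite normal subgroup `N`, so `E ≤ N`: contradiction. -/
def EFN_stmt : Prop := ∀ (G : Type) [Group G] (a b : G), CE a b →
  ∃ E : Subgroup G, E.Normal ∧ (E : Set G).Finite ∧ ∀ N : Subgroup G, N.Normal → (N : Set G).Finite → N ≤ E

/-- **QUO** (short). Quotients by finite normal subgroups are counterexamples. Proof. `gen`: image of the closure. `inf`: `Finite E`, `Finite (G ⧸ E)` would give `Finite G`. `fin`: if `closure {ā, ḡ⁻¹ b̄ ḡ}` is infinite, and `g` is in the class `ḡ`, then `closure {a, g⁻¹ b g}` is mapped onto it, so `g ∈ Bad a b`: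
`Bad ā b̄` is contained in the image of `Bad a b`. -/
def QUO_stmt : Prop := ∀ (G : Type) [Group G] (a b : G), CE a b → ∀ (E : Subgroup G) [E.Normal], (E : Set G).Finite →
  CE (QuotientGroup.mk a : G ⧸ E) (QuotientGroup.mk b : G ⧸ E)

/-- **JIN** (short; from NIN). The quotient by the largest finite normal subgroup is just infinite. Proof. `N' = N.comap (QuotientGroup.mk' E)` is normal and contains `E`; if it is finite then `N' ≤ E`, so `N = ⊥` (`Subgroup.map_comap_eq_self_of_surjective`). So it is infinite, `N'.FiniteIndex` by NIN, and the index of `N` is the index of `N'`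
(`Subgroup.index_comap_of_surjective`). -/
def JIN_stmt : Prop := ∀ (G : Type) [Group G] (a b : G), CE a b → ∀ (E : Subgroup G) [E.Normal],
  (∀ N : Subgroup G, N.Normal → (N : Set G).Finite → N ≤ E) → ∀ N : Subgroup (G ⧸ E), N.Normal → N ≠ ⊥ → N.FiniteIndex

/-- **QIV** (short). A counterexample is not virtually abelian. `import Pool.Agent.helper44.ProP` (landed), theorem `Pool.Agent.helper44.ProP.main_abelian a b hab H χ hχ` (a surjective homomorphism `χ` from the finite index subgroup `H` onto `Multiplicative B`, `B` an infinite additive abelian group): use `H = A`, `B = Additive A` with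
the commutative group structure on `A` given by the hypothesis (`letI : CommGroup A := ..`), `χ` the identity (`MulEquiv.toMultiplicative`, ..). `A` is infinite (finite index in the infinite `G`). It gives a normal subgroup `N` of finite index with `N ⊆ Bad a b`, and `N` is infinite: contradiction. -/
def QIV_stmt : Prop := ∀ (G : Type) [Group G] (a b : G), CE a b → ∀ A : Subgroup G, A.FiniteIndex → (∀ x ∈ A, ∀ y ∈ A, x * y = y * x) → False

/-- **CQF** (short; from NIN, QIV). The centralizer of a subgroup of finite index is finite. Proof. `N = Q.normalCore` (finite index, normal), `C = centralizer N ≥ centralizer Q`, a normal subgroup (`Subgroup.Normal` of the centralizer of a normal subgroup is an instance). If it is infinite then it has finite index; `A = N ⊓ C` has finite index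
and is abelian: contradiction to QIV. -/
def CQF_stmt : Prop := ∀ (G : Type) [Group G] (a b : G), CE a b → ∀ Q : Subgroup G, Q.FiniteIndex → (Subgroup.centralizer (Q : Set G) : Set G).Finite

/-- **FCF** (short-medium; from NIN, QIV). An element with finitely many conjugates lies in a finite normal subgroup. Proof. `K = Subgroup.normalClosure {y}` = closure of the set of the conjugates. Its centralizer `C` is the intersection of the centralizers of the conjugates of `y`; these are conjugate subgroups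
`g (centralizer {y}) g⁻¹`, i.e. `C = (centralizer {y}).normalCore`, of finite index (instance `Subgroup.finiteIndex_normalCore`). If `K` is infinite then it has finite index (NIN), `A = K ⊓ C` has finite index and is abelian: contradiction to QIV. -/
def FCF_stmt : Prop := ∀ (G : Type) [Group G] (a b : G), CE a b → ∀ y : G, (Subgroup.centralizer ({y} : Set G)).FiniteIndex →
  (Subgroup.normalClosure ({y} : Set G) : Set G).Finite

/-! ## Block T: an involution whose centralizer has cyclic Sylow `2`-subgroups -/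

/-- **BSQ** (short-medium; from QUO, FCF, QIV). If `a² = 1` then `b²` has infinitely many conjugates. Proof. Otherwise `K = normalClosure {b²}` is finite (FCF), and `ā`, `b̄` is a counterexample in `G ⧸ K` (QUO) with `ā² = b̄² = 1`. `A = zpowers (ā b̄)` is abelian; `A` has index at most `2`: the conjugates of `ā b̄` by `ā` and `b̄` are its inverse,
so `A` is normal and every element of the group generated by `ā`, `b̄` is in `A ∪ ā A` (closure induction: `A ∪ ā A` contains `ā`, `b̄ = ā (ā b̄)` and is closed under products and inverses). Contradiction to QIV for `G ⧸ K`. -/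
def BSQ_stmt : Prop := ∀ (G : Type) [Group G] (a b : G), CE a b → a ^ 2 = 1 → ¬ (Subgroup.centralizer ({b ^ 2} : Set G)).FiniteIndex

/-- **BPW** (short-medium; pure). A power `y` of `b` with infinitely many conjugates and of good order. Proof. `n = orderOf b = 2^r m`, `m` odd (`Nat.exists_eq_two_pow_mul_odd`). `y₁ = b^(2^r)` has order `m`, `y₂ = b^m` has order `2^r` (`orderOf_pow_of_dvd`). By Bezout (`2^r`, `m` coprime) `b = y₁^u * y₂^v`, `u v : ℤ`.
If the centralizer `C₁` of `y₁` has infinite index: `y = y₁`. Otherwise: if `r ≤ 1` then `y₂² = 1`, `b² = y₁^(2u)`, whose centralizer contains `C₁`: contradiction. So `r ≥ 2`, and if the centralizer `C₂` of `y₂` has finite index then so has `C₁ ⊓ C₂`, which is contained in the centralizer of `b²`: contradiction. So `y = y₂`. -/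
def BPW_stmt : Prop := ∀ (G : Type) [Group G] (b : G), IsOfFinOrder b → ¬ (Subgroup.centralizer ({b ^ 2} : Set G)).FiniteIndex →
  ∃ y ∈ Subgroup.zpowers b, ¬ (Subgroup.centralizer ({y} : Set G)).FiniteIndex ∧ Ord4 y

/-- **SYC** (short-medium). From the Sylow subgroups of one centralizer. Proof. `K ≤ centralizer {g⁻¹ u g}`; the conjugate `K' = g K g⁻¹` is a `2`-group contained in `C = centralizer {u}`; `K'.subgroupOf C` is a `2`-subgroup of `C`, contained in a Sylow subgroup `P` (`IsPGroup.exists_le_sylow`), which is cyclic; so `K'` is cyclic (subgroups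
of cyclic groups: `Subgroup.isCyclic`, `isCyclic_of_injective`), and `K ≃* K'`. -/
def SYC_stmt : Prop := ∀ (G : Type) [Group G] (u : G),
  (∀ P : Sylow 2 (Subgroup.centralizer ({u} : Set G)), IsCyclic P) → Cyc u

/-- **SYF** (medium). Finite groups: a homomorphism onto a `2`-group with kernel of odd order. Proof. Let `T` be a Sylow `2`-subgroup of `F` which contains `i` (`IsPGroup.exists_le_sylow` for `zpowers i`). Its centre has an element `z` of order `2` (`IsPGroup.center_nontrivial`, Cauchy). `z` and `i` generate a `2`-subgroup of the centralizer of `i`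
(they commute), which is cyclic, so it has at most one element of order `2`: `z = i`. So `i` is in the centre of `T`, `T ≤ centralizer {i}`, `T` is cyclic by the hypothesis. `Nat.card F` is even, so `2` is its smallest prime factor and `IsCyclic.isComplement'` (Mathlib, transfer; file Mathlib/GroupTheory/Transfer or
SchurZassenhaus) gives a normal complement `N` of `T`: the kernel of `MonoidHom.transferSylow T _ : F →* T`. `φ` = this homomorphism; its kernel has `Nat.card = T.index`, which is odd. -/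
def SYF_stmt : Prop := ∀ (F : Type) [Group F] [Finite F] (i : F), i * i = 1 → i ≠ 1 →
  (∀ K : Subgroup F, K ≤ Subgroup.centralizer ({i} : Set F) → IsPGroup 2 K → IsCyclic K) →
  ∃ (T : Type) (_ : CommGroup T) (φ : F →* T), Odd (Nat.card φ.ker) ∧ ∀ y : F, ∃ k : ℕ, φ y ^ 2 ^ k = 1

/-- **FGL** (medium; from SYF). The decomposition `x = δ t`. Proof. `F = closure {i, x}` (a finite group); SYF for `F` and `i` (the hypothesis `Cyc i` with `g = 1`; subgroups `K` of `↥F` are mapped to `G` by `Subgroup.map F.subtype`) gives `φ : F →* T` with kernel `O` of odd order. `r = i (x⁻¹ i x)`: `φ r = φ(i)² = 1`, `r ∈ O`, so `r` has odd order `n`.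
`i r i = x⁻¹ i x i = r⁻¹`. `s = r^((n+1)/2)`: `s² = r`, `i s i = s⁻¹`, `s ∈ O`. `t = i s`: `t² = 1` and `t⁻¹ i t = s⁻¹ i s = i s s = i r = x⁻¹ i x`. `δ = x t⁻¹ = x t`: `δ⁻¹ i δ = t (x⁻¹ i x) t⁻¹ = i`, so `δ` commutes with `i`; `δ⁻¹ x = t`. `φ δ = φ x φ i`. CLAIM: `δ` has even order. If `δ^m = 1`, `m` odd, then `φ(x)^m = φ(i)` (as
`φ(i)² = 1`). If `x` has odd order `k`: `1 = φ(x)^(mk) = φ(i)^k = φ(i)`, so `i ∈ O`, `i² = 1`, `O` of odd order: `i = 1`, contradiction. If `x` has order `2^r`, `r ≥ 2`: `φ(x)^(2m) = 1`, so `x^(2m) ∈ O` has odd order and `x^(2m)` has order a power of `2`: `x^(2m) = 1`, `2^r ∣ 2m`, `4 ∣ 2m`: contradiction. So `δ` (of finite order,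
as it is in `F`) has order `2k`, and `z = δ^k` has order `2` and commutes with `i`; `⟨z, i⟩` is a `2`-subgroup of the centralizer of `i`, cyclic, so `z = i` (at most one element of order `2` in a cyclic group). So `i = δ^k ∈ zpowers δ`. -/
def FGL_stmt : Prop := ∀ (G : Type) [Group G] (i x : G), i * i = 1 → i ≠ 1 → Cyc i → (Subgroup.closure ({i, x} : Set G) : Set G).Finite → Ord4 x →
  ∃ δ : G, δ * i = i * δ ∧ (δ⁻¹ * x) * (δ⁻¹ * x) = 1 ∧ i ∈ Subgroup.zpowers δ

/-- **ULT** (medium; from CNJ, FGL). The ultrafilter. Proof. `X` = the set of the conjugates of `y`; it is infinite (it is in bijection with `G ⧸ centralizer {y}`; or: if `X` is finite then `MulAction` of `ConjAct G`, orbit finite, stabilizer of finite index). `ω` = an ultrafilter containing `cofinite ⊓ 𝓟 X` (`Filter.cofinite_inf_principal_neBot_iff`,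
`Ultrafilter.of`). A finite set is not in `ω`. Let `i = g⁻¹ u g`. By CNJ (`h = g`, `x = u`, and `y`) the set `B` of the `k` with `closure {i, k⁻¹ y k}` infinite is finite, so for all `x = k⁻¹ y k ∈ X` outside the finite set `{k⁻¹ y k : k ∈ B}` the group `closure {i, x}` is finite; `Ord4 x` (conjugate of `y`, the same order), `Cyc i` (from
`Cyc u`; conjugates of conjugates), so FGL gives `δ` in the centralizer of `i`. This centralizer is finite (conjugate of the centralizer of `u`), so by `Ultrafilter.eventually_exists_mem_iff` (or `Ultrafilter.finite_biUnion_mem_iff`) there is one `δ` with `∀ᶠ x, (δ⁻¹ x)² = 1 ∧ i ∈ zpowers δ ∧ ..`. Define the function `δ` by choice. -/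
def ULT_stmt : Prop := ∀ (G : Type) [Group G] (a b : G), CE a b → ∀ u ∈ Subgroup.zpowers a, u * u = 1 → u ≠ 1 → Cyc u →
  (Subgroup.centralizer ({u} : Set G) : Set G).Finite → ∀ y ∈ Subgroup.zpowers b, ¬ (Subgroup.centralizer ({y} : Set G)).FiniteIndex → Ord4 y →
  ∃ (ω : Ultrafilter G) (δ : G → G), (∀ s : Set G, s.Finite → s ∉ ω) ∧
    ∀ g i : G, i = g⁻¹ * u * g → δ i * i = i * δ i ∧ i ∈ Subgroup.zpowers (δ i) ∧ ∀ᶠ x in (ω : Filter G), ((δ i)⁻¹ * x) * ((δ i)⁻¹ * x) = 1

/-- **QSB** (short). The subgroup `Q`. Proof. Closure under products: `x (p q) x⁻¹ = (x p x⁻¹) (x q x⁻¹)`, intersection of two sets of the filter; inverses. Second part: for almost all `x`: `(δ⁻¹ x)² = 1` and `(ε⁻¹ x)² = 1`, i.e. `x δ⁻¹ x = δ`, `x ε⁻¹ x = ε`; `x (δ⁻¹ ε) x⁻¹ = (x δ⁻¹ x) (x⁻¹ ε x⁻¹) = δ ε⁻¹`, as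
`x⁻¹ ε x⁻¹ = (x ε⁻¹ x)⁻¹ = ε⁻¹`. -/
def QSB_stmt : Prop := ∀ (G : Type) [Group G] (ω : Filter G),
  (∃ Q : Subgroup G, ∀ q, q ∈ Q ↔ Qc ω q) ∧
  ∀ δ ε : G, (∀ᶠ x in ω, (δ⁻¹ * x) * (δ⁻¹ * x) = 1) → (∀ᶠ x in ω, (ε⁻¹ * x) * (ε⁻¹ * x) = 1) → Qc ω (δ⁻¹ * ε)

/-- **PSL** (medium; pure). Proof. Let `D j` be the centralizer of `j` and `𝒞 = {c : G ⧸ Q | ∀ j ∈ I, ∃ d ∈ D j, c = d Q}`. `𝒞` is finite (`I` is nonempty and `D j` is finite) and contains the class of `1`. CLAIM 1: `q 𝒞 ⊆ 𝒞` for `q ∈ Q`. Let `c ∈ 𝒞`, `j ∈ I`, `j' = q⁻¹ j q ∈ I`, `c = d Q`, `d ∈ D j'`. Then `q c = (q d q⁻¹) q Q = (q d q⁻¹) Q`,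
and `q d q⁻¹ ∈ D j`. CLAIM 2: `δ_k 𝒞 ⊆ 𝒞` for `k ∈ I`. Let `j' = δ_k⁻¹ j δ_k ∈ I`, `c = d Q`, `d ∈ D j'`; `δ_k c = (δ_k d δ_k⁻¹) δ_k Q = (δ_k d δ_k⁻¹) δ_j Q` (as `δ_j⁻¹ δ_k ∈ Q`), and both factors are in `D j`. As `𝒞` is finite `q 𝒞 = 𝒞`, `δ_k 𝒞 = 𝒞`. Let `P` be the stabilizer of the set `𝒞` (`MulAction.stabilizer G 𝒞`, pointwise
action, `Set.eq_of_subset_of_ncard_le`). `Q ≤ P`; `δ_k ∈ P`, so `I ⊆ P` (`k ∈ zpowers (δ k)`), `closure I ≤ P`, so `P` has finite index. `Q` has finite index in `P`: the cosets `p Q`, `p ∈ P`, are in `𝒞`. So `Q` has finite index (`Subgroup.relIndex_mul_index`; or: `G ⧸ Q` is covered by finitely many translates `g 𝒞`, `g` in a finite set of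
representatives of `G ⧸ P`: `g = g' p`, `g Q = g' (p Q)`). -/
def PSL_stmt : Prop := ∀ (G : Type) [Group G] (Q : Subgroup G) (I : Set G) (δ : G → G), I.Nonempty → (∀ g : G, ∀ j ∈ I, g⁻¹ * j * g ∈ I) →
  (∀ j ∈ I, (Subgroup.centralizer ({j} : Set G) : Set G).Finite) → (∀ j ∈ I, δ j * j = j * δ j) → (∀ j ∈ I, ∀ k ∈ I, (δ j)⁻¹ * δ k ∈ Q) →
  (∀ j ∈ I, j ∈ Subgroup.zpowers (δ j)) → (Subgroup.closure I).FiniteIndex → Q.FiniteIndex

/-- **QFI** (short-medium). The subgroup `Q` has infinite index. Proof. `Q` has finite index in a finitely generated group, so it is generated by a finite set `s` (`Subgroup.fg_of_index_ne_zero`). For almost all `x` all the `x q x⁻¹`, `q ∈ s`, are constant (finite intersection: `Filter.eventually_all_finset`). The set `A` of these `x` is in `ω`, nonempty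
(`ω` is an ultrafilter, so `NeBot`); fix `x₀ ∈ A`. For `x ∈ A`: `x q x⁻¹ = x₀ q x₀⁻¹` for `q ∈ s`, so `x₀⁻¹ x` commutes with `s`, so with `Q`. So `A ⊆ x₀ C`, `C` the centralizer of `Q`, a finite set: contradiction. -/
def QFI_stmt : Prop := ∀ (G : Type) [Group G] [Group.FG G] (ω : Ultrafilter G) (Q : Subgroup G), (∀ s : Set G, s.Finite → s ∉ ω) →
  (∀ q, q ∈ Q ↔ Qc (ω : Filter G) q) → (Subgroup.centralizer (Q : Set G) : Set G).Finite → ¬ Q.FiniteIndex

/-- **TTW** (medium; from NIN, CEN, DIC, CQF, BSQ, BPW, SYC, ULT, QSB, PSL, QFI). The first theorem. Proof. Suppose that `Bad a b` is finite: `CE a b`. The centralizer of `u` is finite (hypothesis or DIC), so `u ≠ 1` (`G` is infinite). `b²` has infinitely many conjugates (hypothesis, or BSQ if `u = a`). BPW gives `y`; SYC gives `Cyc u`; ULT gives `ω, δ`;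
QSB gives `Q`. `I` = the set of the conjugates `g⁻¹ u g`. `closure I` is the normal closure of `u`; `I` is infinite (the centralizer of `u` is finite and `G` is infinite), so `closure I` is an infinite normal subgroup, of finite index by NIN. PSL: `Q` has finite index. CQF: the centralizer of `Q` is finite. QFI: contradiction. (`G` is finitely generated
by `a`, `b`.) -/
def TTW_stmt : Prop := ∀ (G : Type) [Group G] [Infinite G] (a b : G), Subgroup.closure ({a, b} : Set G) = ⊤ → ∀ u ∈ Subgroup.zpowers a, u ^ 2 = 1 →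
  (∀ P : Sylow 2 (Subgroup.centralizer ({u} : Set G)), IsCyclic P) →
  ((Subgroup.centralizer ({u} : Set G) : Set G).Finite ∨ ∃ h : G, (Subgroup.closure ({u, h⁻¹ * b * h} : Set G) : Set G).Infinite) →
  (u = a ∨ ¬ (Subgroup.centralizer ({b ^ 2} : Set G)).FiniteIndex) → (Bad a b).Infinite

/-! ## Block R: reduction to infinite simple groups -/

/-- the condition on a power of a generator used in the second theorem (it holds for `x = a` if `a` has prime order) -/
def Prm {G : Type} [Group G] (a b : G) : Prop := ∃ p : ℕ, p.Prime ∧ ∃ x : G, x ^ p = 1 ∧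
  ((x ∈ Subgroup.zpowers a ∧ ((Subgroup.centralizer ({x} : Set G) : Set G).Finite ∨
      ∃ h : G, (Subgroup.closure ({x, h⁻¹ * b * h} : Set G) : Set G).Infinite)) ∨
    (x ∈ Subgroup.zpowers b ∧ ((Subgroup.centralizer ({x} : Set G) : Set G).Finite ∨
      ∃ h : G, (Subgroup.closure ({a, h⁻¹ * x * h} : Set G) : Set G).Infinite)))

/-- **QFB** (short). Bounded finite quotients. `import Pool.Agent.helper9.TH.Final` (landed), theorem `Pool.Agent.helper9.TH.final a b hgen p hp x hq hx` (see `Pool/Agent/Results/MP_fd6eef_al/FiniteQuotients.lean` for its statement): if the indices are not bounded then `Bad a b` is infinite. -/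
def QFB_stmt : Prop := ∀ (G : Type) [Group G] (a b : G), CE a b → Prm a b → ∃ m : ℕ, ∀ N : Subgroup G, N.Normal → N.FiniteIndex → N.index < m

/-- **MNM** (short-medium). The smallest normal subgroup. Proof. For `H = G ⧸ E`: a normal subgroup of finite index of `H` has the same index as its preimage in `G`, so the indices are `< m`. Choose `M` normal of finite index with the largest index (`Nat.findGreatest`, or strong induction). If `N ≠ ⊥` is normal, it has finite index, `M ⊓ N` is normal of
finite index, a multiple of `M.index` which is at most `M.index`: equal indices and `M ⊓ N ≤ M` give `M ⊓ N = M` (`Subgroup.index_strictAnti`, `Subgroup.relIndex_eq_one`, ..). So `M ≤ N`. `M ≠ ⊥` as `H` is infinite. Last part: a subgroup `K ≤ M` of finite index has a normal core of finite index, which is `≠ ⊥`, so `M ≤ K`. -/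
def MNM_stmt : Prop := ∀ (G : Type) [Group G] (E : Subgroup G) [E.Normal] (m : ℕ), Infinite (G ⧸ E) → (∀ N : Subgroup G, N.Normal → N.FiniteIndex → N.index < m) →
  (∀ N : Subgroup (G ⧸ E), N.Normal → N ≠ ⊥ → N.FiniteIndex) →
  ∃ M : Subgroup (G ⧸ E), M.Normal ∧ M.FiniteIndex ∧ M ≠ ⊥ ∧ (∀ N : Subgroup (G ⧸ E), N.Normal → N ≠ ⊥ → M ≤ N) ∧ ∀ K : Subgroup (G ⧸ E), K.FiniteIndex → M ≤ K

/-- **ZMN** (short-medium; pure). Maximal normal subgroups. Proof. Zorn's lemma (`zorn_le_nonempty₀` or `zorn_subset`) for the normal subgroups `≠ ⊤`; the union of a nonempty chain is a normal subgroup (`sSup` of a directed set) and is `≠ ⊤`: otherwise the finitely many generators of `M` lie in one member. (`⊥ ≠ ⊤` as `M` is nontrivial.) -/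
def ZMN_stmt : Prop := ∀ (M : Type) [Group M] [Group.FG M] [Nontrivial M],
  ∃ K : Subgroup M, K.Normal ∧ K ≠ ⊤ ∧ ∀ K' : Subgroup M, K'.Normal → K ≤ K' → K' = K ∨ K' = ⊤

/-- a set of normal subgroups with simple quotients, trivial intersection -/
structure KS {M : Type} [Group M] (S : Set (Subgroup M)) : Prop where
  fin : S.Finite
  ne : S.Nonempty
  nor : ∀ K ∈ S, K.Normal
  top : ∀ K ∈ S, K ≠ ⊤
  max : ∀ K ∈ S, ∀ K' : Subgroup M, K'.Normal → K ≤ K' → K' = K ∨ K' = ⊤
  nab : ∀ K ∈ S, ∃ x y : M, x * y * x⁻¹ * y⁻¹ ∉ K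
  bot : sInf S = ⊥

/-- the factor which belongs to `K` -/
def fac {M : Type} [Group M] (S : Set (Subgroup M)) (K : Subgroup M) : Subgroup M := sInf (S \ {K})

/-- **CRE** (medium). The conjugates of a maximal normal subgroup. Here `H` is the group, `M` its smallest normal subgroup. From ZMN. Proof. `M` is finitely generated (finite index in the finitely generated `H`, `Subgroup.fg_of_index_ne_zero`) and nontrivial. ZMN gives `K₀ : Subgroup M`. For `g : H` let `α g : M ≃* M` be the conjugation
(`MulAut.conjNormal g`, `x ↦ g x g⁻¹`) and `S = {K₀.map (α g) : g}`. `nor`, `top`, `max`: images under automorphisms. `fin`: `K₀` is normal in `M`, so `K₀.map (α (g m)) = K₀.map (α g)` for `m ∈ M` and `S` is the image of the finite set `H ⧸ M`. `ne`: clear. `bot`: the image `N` of `sInf S` in `H` (`Subgroup.map M.subtype`) is normal in `H`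
(`S` is invariant); if it is `≠ ⊥` then `M ≤ N`, so `sInf S = ⊤`, `K₀ = ⊤`: contradiction. `nab`: if all commutators of `M` are in one `K ∈ S` then, by conjugation (transitivity), they are in all members
of `S`, so they are trivial by `bot`: `M` is abelian, a contradiction to the last hypothesis. -/
def CRE_stmt : Prop := ∀ (H : Type) [Group H] [Group.FG H] (M : Subgroup H) [M.Normal], M.FiniteIndex → M ≠ ⊥ → (∀ N : Subgroup H, N.Normal → N ≠ ⊥ → M ≤ N) →
  ¬ (∀ x ∈ M, ∀ y ∈ M, x * y = y * x) → ∃ S : Set (Subgroup M), KS S ∧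
    (∀ g : H, ∀ K ∈ S, K.map (MulAut.conjNormal g : M ≃* M).toMonoidHom ∈ S) ∧
    ∀ K ∈ S, ∀ K' ∈ S, ∃ g : H, K' = K.map (MulAut.conjNormal g : M ≃* M).toMonoidHom

/-- **FNK** (medium; pure). The factor is not contained in `K`. Proof. Suppose `fac S K ≤ K`. Let `T ⊆ S \ {K}` be a minimal (finite) subset with `sInf T ≤ K` (`S` is finite; induction over finite sets): CLAIM: if `T` is a finite set of normal subgroups, none contained in `K`, then `sInf T` is not contained in `K`. Induction: `T = ∅`: `sInf = ⊤`, `K ≠ ⊤`. `T = insert A T'`: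
`A` and `B = sInf T'` are normal, not contained in `K`; by `max` `A ⊔ K = ⊤`, `B ⊔ K = ⊤`. If `A ⊓ B ≤ K` then for `x = a k`, `y = b k'` (`a ∈ A`, `b ∈ B`, `k, k' ∈ K`; `Subgroup.mem_sup` for normal subgroups) the commutator of `x`, `y` is modulo `K` the commutator of `a`, `b`, which is in `A ⊓ B ≤ K`: contradiction to `nab`. For `K' ∈ S \ {K}`:
`K' ≤ K` would give `K = K'` (`max` for `K'`, and `K ≠ ⊤`): so no member of `S \ {K}` is contained in `K`. -/
def FNK_stmt : Prop := ∀ (M : Type) [Group M] (S : Set (Subgroup M)), KS S → ∀ K ∈ S, ¬ fac S K ≤ K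

/-- **FPR** (medium; pure, from FNK). The factors. Let `L K = fac S K` (normal). Proof. (1) `L K ⊓ K = sInf S = ⊥`, `L K ⊔ K = ⊤` (`max`, FNK). (2) `L K ≃* M ⧸ K`: simple: a normal subgroup `A` of `L K` is normalised by `L K` and by `K` (elements of `K` and `L K` commute: both are normal and `L K ⊓ K = ⊥`, `Subgroup.commute_of_normal_of_disjoint`), so its image in `M` is normal,
`A ⊔ K` is `K` or `⊤`, so `A = ⊥` or `A = L K` (modular law: `A = L K ⊓ (A ⊔ K)`); nontrivial as `L K` is not in `K`. (3) For `K ≠ K'`: `L K' ≤ K`, `L K ⊓ L K' = ⊥`: they commute, and `L K = L K'` is impossible (it would be `⊥`). (4) `⨆ L K = ⊤`: for `x : M` and `K ∈ S` choose `x_K ∈ L K` with `x = x_K` modulo `K` ((1)); `y = ∏ x_K` (noncommutative product over a list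
of the finite set `S`, or induction over finite subsets `T` of `S`: there is `y_T` in the sup of the `L K`, `K ∈ T`, with `y_T = x` modulo `K` for `K ∈ T` and `y_T ∈ K` for `K ∈ S \ T`): `y = x` modulo every `K`, so `y = x`. (5) Independence: the sup of the `L K'`, `K' ≠ K`, is in `K`, and `L K ⊓ K = ⊥`. (6) `L K` is finitely generated: `L K ≃* M ⧸ K`. (7) infinite:
`K` has infinite index by the hypothesis `hfi`, and `L K ≃* M ⧸ K`. -/
def FPR_stmt : Prop := ∀ (M : Type) [Group M] [Group.FG M] (S : Set (Subgroup M)), KS S → (∀ K : Subgroup M, K.FiniteIndex → K = ⊤) →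
  (∀ K ∈ S, IsSimpleGroup (fac S K) ∧ Infinite (fac S K) ∧ (fac S K).FG) ∧
  (∀ K ∈ S, ∀ K' ∈ S, K ≠ K' → fac S K ≠ fac S K' ∧ ∀ x ∈ fac S K, ∀ y ∈ fac S K', x * y = y * x) ∧
  sSupIndep (fac S '' S) ∧ sSup (fac S '' S) = ⊤

/-- the simple factors of the smallest normal subgroup -/
structure Fac {H : Type} [Group H] (S : Set (Subgroup H)) : Prop where
  fin : S.Finite
  ne : S.Nonempty
  sim : ∀ L ∈ S, IsSimpleGroup L
  inf : ∀ L ∈ S, Infinite L
  fg : ∀ L ∈ S, L.FG
  com : ∀ L ∈ S, ∀ L' ∈ S, L ≠ L' → ∀ x ∈ L, ∀ y ∈ L', x * y = y * x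
  ind : sSupIndep S
  cnj : ∀ g : H, ∀ L ∈ S, cj g L ∈ S
  tra : ∀ L ∈ S, ∀ L' ∈ S, ∃ g : H, cj g L = L'
  ix : (sSup S).FiniteIndex
  least : ∀ N : Subgroup H, N.Normal → N ≠ ⊥ → sSup S ≤ N
  cen : Subgroup.centralizer ((sSup S : Subgroup H) : Set H) = ⊥

/-- **FCH** (medium; from CRE, FPR). Transport to `H`. Proof. `S` of CRE; `𝓛 = {(fac S K).map M.subtype : K ∈ S}`. FPR needs: a subgroup `K` of finite index of `M` is `⊤`: its image in `H` has finite index (`M` has finite index), so it contains `M` by the last hypothesis. `M.subtype` is injective, so sup, independence, simplicity, commutation, finite generation are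
transported (`Subgroup.equivMapOfInjective`); `sSup 𝓛 = M`. `cnj`: `cj g ((fac S K).map M.subtype) = (fac S (α_g K)).map M.subtype`, as `α_g` permutes `S` (injective, `S` finite or the inverse is `α_(g⁻¹)`) and commutes with `sInf`. `tra`: the same formula and transitivity on `S`. `cen`: the centralizer of `M` is normal; if it is `≠ ⊥` it contains `M`, so
`M` is abelian: contradiction to `hna`. -/
def FCH_stmt : Prop := ∀ (H : Type) [Group H] [Group.FG H] (M : Subgroup H), M.Normal → M.FiniteIndex → M ≠ ⊥ → (∀ N : Subgroup H, N.Normal → N ≠ ⊥ → M ≤ N) →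
  (∀ K : Subgroup H, K.FiniteIndex → M ≤ K) → ¬ (∀ x ∈ M, ∀ y ∈ M, x * y = y * x) → ∃ S : Set (Subgroup H), Fac S ∧ sSup S = M

/-- **OLN** (medium; pure). The orbits of an element with finite centralizer on the factors. Proof. `x` has finite order (`zpowers x` is contained in the centralizer), so there is a smallest `s ≥ 1` with `cj (x^s) L = L`. If `x^s = 1`: `L_j = cj (x^j) L`, `j < s`, are different members of `S` (`L_j = L_k`, `j < k`, would give `cj (x^(k-j)) L = L`), so they commute elementwise.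
For `y ∈ L` let `π y = ∏_(j < s) x^j y x^(-j)` (product over `List.range s`, the factors commute). `x (π y) x⁻¹ = ∏_(j < s) x^(j+1) y x^(-j-1)` is the product of the same factors in another order (`x^s = 1`): `π y = y P`, `P = ∏_(1 ≤ j < s)`, and `x (π y) x⁻¹ = P (x^s y x^(-s)) = P y = y P` (`y ∈ L_0` commutes with `P`). So `π y` is in the centralizer of `x`. `π` is
injective: `y P = y' P'` gives `y'⁻¹ y = P' P⁻¹ ∈ L ⊓ (sSup (S \ {L})) = ⊥` (`ind`; the factors of `P`, `P'` are in the `L_j ≠ L`). So the centralizer is infinite: contradiction. So `x^s ≠ 1`. -/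
def OLN_stmt : Prop := ∀ (H : Type) [Group H] (S : Set (Subgroup H)), S.Finite → (∀ L ∈ S, Infinite L) →
  (∀ L ∈ S, ∀ L' ∈ S, L ≠ L' → ∀ x ∈ L, ∀ y ∈ L', x * y = y * x) → sSupIndep S → (∀ g : H, ∀ L ∈ S, cj g L ∈ S) →
  ∀ x : H, (Subgroup.centralizer ({x} : Set H) : Set H).Finite → ∀ L ∈ S, ∃ s : ℕ, 1 ≤ s ∧ cj (x ^ s) L = L ∧ x ^ s ≠ 1

/-- **PRO** (short-medium; from OLN). Prime orders. Proof. Let `x` have a power `x^s ≠ 1` with `cj (x^s) L = L`; if `x^p = 1`, `p` prime, then `s` is prime to `p` (else `x^s = 1`), so `x = (x^s)^k` for some `k : ℤ`, and `cj x L = L` (the `g` with `cj g L = L` form a subgroup). If this holds for `a` and `b` which generate `H`, then `cj g L = L` for all `g`,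
and by transitivity `S = {L}`. -/
def PRO_stmt : Prop := ∀ (H : Type) [Group H] (S : Set (Subgroup H)), Fac S → (∀ x : H, ∀ p : ℕ, p.Prime → x ^ p = 1 →
    (Subgroup.centralizer ({x} : Set H) : Set H).Finite → ∀ L ∈ S, cj x L = L) ∧
  ∀ a b : H, Subgroup.closure ({a, b} : Set H) = ⊤ → ∀ p q : ℕ, p.Prime → q.Prime → a ^ p = 1 → b ^ q = 1 →
    (Subgroup.centralizer ({a} : Set H) : Set H).Finite → (Subgroup.centralizer ({b} : Set H) : Set H).Finite → ∃ L, S = {L}

/-- **TRD** (medium; from NIN, CEN, EFN, QUO, JIN, QIV, QFB, MNM, FCH, OLN, PRO). The second theorem. Proof. `CE a b`. CEN: the centralizers. EFN: `E`. QUO: `CE ā b̄`; JIN: just infinite. If `Prm a b`: QFB gives `m`, MNM gives `M`; `M` is not abelian by QIV for `G ⧸ E`; FCH gives `S`. OLN for `ā`, `b̄` (centralizers finite by CEN for `G ⧸ E`). PRO. (`a ^ p = 1` gives `ā ^ p = 1`.) -/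
def TRD_stmt : Prop := ∀ (G : Type) [Group G] [Infinite G] (a b : G), Subgroup.closure ({a, b} : Set G) = ⊤ → (Bad a b).Finite →
  (Subgroup.centralizer ({a} : Set G) : Set G).Finite ∧ (Subgroup.centralizer ({b} : Set G) : Set G).Finite ∧
  ∃ (E : Subgroup G) (_ : E.Normal), (E : Set G).Finite ∧ (Bad (QuotientGroup.mk a : G ⧸ E) (QuotientGroup.mk b : G ⧸ E)).Finite ∧
    (∀ N : Subgroup (G ⧸ E), N.Normal → N ≠ ⊥ → N.FiniteIndex) ∧
    (Prm a b → ∃ S : Set (Subgroup (G ⧸ E)), Fac S ∧
      (∀ L ∈ S, ∀ x : G ⧸ E, x = QuotientGroup.mk a ∨ x = QuotientGroup.mk b → ∃ s : ℕ, 1 ≤ s ∧ cj (x ^ s) L = L ∧ x ^ s ≠ 1) ∧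
      (∀ p : ℕ, p.Prime → a ^ p = 1 → ∀ L ∈ S, cj (QuotientGroup.mk a : G ⧸ E) L = L) ∧
      (∀ p : ℕ, p.Prime → b ^ p = 1 → ∀ L ∈ S, cj (QuotientGroup.mk b : G ⧸ E) L = L) ∧
      ∀ p q : ℕ, p.Prime → q.Prime → a ^ p = 1 → b ^ q = 1 → ∃ L, S = {L})

end Pool.Agent.QI
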